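import Mathlib

open MeasureTheory Module
open scoped ENNReal

namespace Pool.Agent.Helper345.CubeSec

noncomputable section

/-- number of `i < n` congruent to `j` mod `k` -/
def c (n k : ℕ) (j : Fin k) : ℕ := (Finset.univ.filter (fun i : Fin n => (i : ℕ) % k = j)).card

lemma c_eq (n k : ℕ) (hk : 0 < k) (j : Fin k) :
    c n k j = n / k + if (j : ℕ) < n % k then 1 else 0 := by
  have h := Nat.count_modEq_card n (r := k) hk (j : ℕ)
  rw [Nat.mod_eq_of_lt j.2] at h
  rw [← h, Nat.count_eq_card_filter_range, c]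
  have : (Finset.univ.filter (fun i : Fin n => (i : ℕ) % k = j)).map Fin.valEmbedding =
      (Finset.range n).filter (fun i => i ≡ (j : ℕ) [MOD k]) := by
    ext i
    simp only [Finset.mem_map, Finset.mem_filter, Finset.mem_univ, true_and, Finset.mem_range,
      Nat.ModEq, Nat.mod_eq_of_lt j.2]
    constructor
    · rintro ⟨a, ha, rfl⟩
      exact ⟨a.2, ha⟩
    · rintro ⟨h1, h2⟩
      exact ⟨⟨i, h1⟩, h2, rfl⟩
  rw [← this, Finset.card_map]

lemma c_pos (n k : ℕ) (hk : 0 < k) (hn : k ≤ n) (j : Fin k) : 0 < c n k j := by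
  rw [c_eq n k hk j]
  have := Nat.div_pos hn hk
  omega

lemma prod_c (n k : ℕ) (hk : 0 < k) :
    ∏ j : Fin k, c n k j = (n / k) ^ (k - n % k) * (n / k + 1) ^ (n % k) := by
  have h1 : ∀ j : Fin k, c n k j = if (j : ℕ) < n % k then n / k + 1 else n / k := by
    intro j
    rw [c_eq n k hk j]
    split_ifs <;> rfl
  simp_rw [h1]
  rw [Fin.prod_univ_eq_prod_range (fun j => if j < n % k then n / k + 1 else n / k) k,
    Finset.prod_ite, Finset.prod_const, Finset.prod_const]
  have hr := Nat.mod_lt n hk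
  have e1 : ((Finset.range k).filter (fun j => j < n % k)) = Finset.range (n % k) := by
    ext j; simp only [Finset.mem_filter, Finset.mem_range]; omega
  have e2 : ((Finset.range k).filter (fun j => ¬ j < n % k)).card = k - n % k := by
    have := Finset.card_filter_add_card_filter_not (s := Finset.range k) (fun j => j < n % k)
    rw [e1, Finset.card_range, Finset.card_range] at this
    omega
  rw [e1, e2, Finset.card_range, mul_comm]

/-- normalised indicator vector of the residue class `j` mod `k` -/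
def e (n k : ℕ) (j : Fin k) : EuclideanSpace ℝ (Fin n) :=
  WithLp.toLp 2 (fun i => if (i : ℕ) % k = j then (√(c n k j))⁻¹ else 0)

lemma e_apply (n k : ℕ) (j : Fin k) (i : Fin n) :
    e n k j i = if (i : ℕ) % k = j then (√(c n k j))⁻¹ else 0 := rfl

lemma e_orthonormal (n k : ℕ) (hk : 0 < k) (hn : k ≤ n) : Orthonormal ℝ (e n k) := by
  rw [orthonormal_iff_ite]
  intro j j'
  rw [PiLp.inner_apply]
  simp only [e_apply]
  split_ifs with h
  · subst h
    have h1 : ∀ i : Fin n, inner ℝ (if (i : ℕ) % k = j then (√(c n k j))⁻¹ else 0)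
        (if (i : ℕ) % k = j then (√(c n k j))⁻¹ else 0) =
        if (i : ℕ) % k = j then ((c n k j : ℝ))⁻¹ else 0 := by
      intro i
      split_ifs
      · simp only [RCLike.inner_apply, conj_trivial]
        rw [← mul_inv, Real.mul_self_sqrt (Nat.cast_nonneg _)]
      · simp
    rw [Finset.sum_congr rfl (fun i _ => h1 i), Finset.sum_ite, Finset.sum_const_zero,
      Finset.sum_const, nsmul_eq_mul, add_zero]
    have : ((c n k j : ℕ) : ℝ) ≠ 0 := Nat.cast_ne_zero.mpr (c_pos n k hk hn j).ne'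
    exact mul_inv_cancel₀ this
  · apply Finset.sum_eq_zero
    intro i _
    split_ifs with h1 h2
    · exact absurd (Fin.ext (h1.symm.trans h2)) h
    · simp
    · simp
    · simp

/-- the isometric embedding of `ℝ^k` onto the block subspace -/
def iota (n k : ℕ) (hk : 0 < k) (hn : k ≤ n) :
    EuclideanSpace ℝ (Fin k) →ₗᵢ[ℝ] EuclideanSpace ℝ (Fin n) :=
  LinearMap.isometryOfOrthonormal
    ((EuclideanSpace.basisFun (Fin k) ℝ).toBasis.constr ℝ (e n k))
    (v := (EuclideanSpace.basisFun (Fin k) ℝ).toBasis)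
    (by simp)
    (by
      have : (((EuclideanSpace.basisFun (Fin k) ℝ).toBasis.constr ℝ) (e n k)) ∘
          ((EuclideanSpace.basisFun (Fin k) ℝ).toBasis) = e n k := by
        funext j
        simp only [Function.comp_apply, Basis.constr_basis]
      rw [this]
      exact e_orthonormal n k hk hn)

lemma iota_apply (n k : ℕ) (hk : 0 < k) (hn : k ≤ n) (s : EuclideanSpace ℝ (Fin k)) (i : Fin n) :
    iota n k hk hn s i = s ⟨(i : ℕ) % k, Nat.mod_lt _ hk⟩ *
      (√(c n k ⟨(i : ℕ) % k, Nat.mod_lt _ hk⟩))⁻¹ := by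
  have h1 : iota n k hk hn s = ∑ j, s j • e n k j := by
    have h0 : iota n k hk hn s =
        ((EuclideanSpace.basisFun (Fin k) ℝ).toBasis.constr ℝ (e n k)) s := rfl
    rw [h0, Basis.constr_apply_fintype]
    rfl
  rw [h1]
  have h2 : (∑ j, s j • e n k j) i = ∑ j, s j * e n k j i := by
    rw [WithLp.ofLp_sum, Finset.sum_apply]
    rfl
  rw [h2, Finset.sum_eq_single ⟨(i : ℕ) % k, Nat.mod_lt _ hk⟩]
  · rw [e_apply, if_pos rfl]
  · intro j _ hj
    rw [e_apply, if_neg, mul_zero]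
    intro h
    exact hj (Fin.ext h.symm)
  · intro h
    exact absurd (Finset.mem_univ _) h

lemma section_eq (n k : ℕ) (hk : 0 < k) (hn : k ≤ n) :
    {x : EuclideanSpace ℝ (Fin n) | x ∈ LinearMap.range (iota n k hk hn).toLinearMap ∧
      ∀ i, |x i| ≤ 1 / 2} =
    (iota n k hk hn) '' {s : EuclideanSpace ℝ (Fin k) | ∀ j, |s j| ≤ √(c n k j) / 2} := by
  ext x
  constructor
  · rintro ⟨⟨s, rfl⟩, h⟩
    refine ⟨s, ?_, rfl⟩
    intro j
    have hj := h ⟨j, lt_of_lt_of_le j.2 hn⟩
    change |iota n k hk hn s ⟨j, lt_of_lt_of_le j.2 hn⟩| ≤ 1 / 2 at hj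
    rw [iota_apply] at hj
    have e1 : (⟨((⟨(j : ℕ), lt_of_lt_of_le j.2 hn⟩ : Fin n) : ℕ) % k, Nat.mod_lt _ hk⟩ : Fin k) = j :=
      Fin.ext (Nat.mod_eq_of_lt j.2)
    rw [e1] at hj
    have hc : (0 : ℝ) < √(c n k j) := Real.sqrt_pos.mpr (Nat.cast_pos.mpr (c_pos n k hk hn j))
    rw [abs_mul, abs_inv, abs_of_pos hc, ← div_eq_mul_inv, div_le_iff₀ hc] at hj
    linarith
  · rintro ⟨s, hs, rfl⟩
    refine ⟨⟨s, rfl⟩, ?_⟩
    intro i
    rw [iota_apply]
    have hc : (0 : ℝ) < √(c n k ⟨(i : ℕ) % k, Nat.mod_lt _ hk⟩) :=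
      Real.sqrt_pos.mpr (Nat.cast_pos.mpr (c_pos n k hk hn _))
    rw [abs_mul, abs_inv, abs_of_pos hc, ← div_eq_mul_inv, div_le_iff₀ hc]
    have := hs ⟨(i : ℕ) % k, Nat.mod_lt _ hk⟩
    linarith

lemma volume_box (n k : ℕ) :
    volume {s : EuclideanSpace ℝ (Fin k) | ∀ j, |s j| ≤ √(c n k j) / 2} =
      ENNReal.ofReal (√((∏ j : Fin k, c n k j : ℕ) : ℝ)) := by
  have h1 : {s : EuclideanSpace ℝ (Fin k) | ∀ j, |s j| ≤ √(c n k j) / 2} =
      (MeasurableEquiv.toLp 2 (Fin k → ℝ)).symm ⁻¹'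
        (Set.pi Set.univ (fun j => Set.Icc (-(√(c n k j) / 2)) (√(c n k j) / 2))) := by
    ext s
    simp only [Set.mem_preimage, Set.mem_pi, Set.mem_univ, true_imp_iff, Set.mem_Icc, ← abs_le]
    rfl
  rw [h1, ((EuclideanSpace.volume_preserving_symm_measurableEquiv_toLp (Fin k))).measure_preimage_equiv,
    volume_pi_pi]
  simp_rw [Real.volume_Icc]
  rw [← ENNReal.ofReal_prod_of_nonneg]
  · congr 1
    rw [Nat.cast_prod, Real.sqrt_prod]
    · apply Finset.prod_congr rfl
      intro j _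
      ring
    · intro j _
      exact Nat.cast_nonneg _
  · intro j _
    have := Real.sqrt_nonneg (c n k j : ℝ)
    linarith

/-- the block subspace attains `V(n,k)` -/
theorem attained (n k : ℕ) (hk : 0 < k) (hn : k ≤ n) :
    ∃ S : Submodule ℝ (EuclideanSpace ℝ (Fin n)), Module.finrank ℝ S = k ∧
      μHE[k] {x : EuclideanSpace ℝ (Fin n) | x ∈ S ∧ ∀ i, |x i| ≤ 1 / 2} =
        ENNReal.ofReal (√(((n / k : ℕ) : ℝ) ^ (k - n % k) * (((n / k : ℕ) : ℝ) + 1) ^ (n % k))) := by
  refine ⟨LinearMap.range (iota n k hk hn).toLinearMap, ?_, ?_⟩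
  · rw [LinearMap.finrank_range_of_inj (iota n k hk hn).injective, finrank_euclideanSpace_fin]
  · rw [section_eq n k hk hn, (iota n k hk hn).isometry.euclideanHausdorffMeasure_image]
    have h2 : (μHE[k] : Measure (EuclideanSpace ℝ (Fin k))) = volume := by
      have := InnerProductSpace.euclideanHausdorffMeasure_eq_volume (V := EuclideanSpace ℝ (Fin k))
      rwa [finrank_euclideanSpace_fin] at this
    rw [h2, volume_box, prod_c n k hk]
    push_cast
    rfl

end

end Pool.Agent.Helper345.CubeSec
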